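import Pool.Agent.R81.EV.K10.C00
import Pool.Agent.R81.EV.K10.C01
import Pool.Agent.R81.EV.K10.C10
import Pool.Agent.R81.EV.K10.C11
import Pool.Agent.R81.EV.K10.Psd
import Pool.Agent.W843.Lnk.Link
import Pool.Agent.R81.EV.Count

/-! The inequality for 3-graphs and the bound for `K_11^10`, `k = 10`. -/

set_option autoImplicit false
set_option maxRecDepth 100000
set_option maxHeartbeats 4000000
open Finset

namespace Pool.Agent.R81.EV.K10

open Pool.Agent.H122R2.N6 hiding TB tg walk walk_all chk chk_sound rep_good walk_good leaf_all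
open Pool.Agent.W846.K54 (tg chk leaf_all)
open Pool.Agent.H120R2.Clique

theorem hc (b012 b013 b023 b123 b014 b024 b124 b034 b134 b234 : ℕ) (hb012 : Bt b012) (hb013 : Bt b013) (hb023 : Bt b023) (hb123 : Bt b123) (hb014 : Bt b014) (hb024 : Bt b024) (hb124 : Bt b124) (hb034 : Bt b034) (hb134 : Bt b134) (hb234 : Bt b234) (ht : tg b012 b013 b023 b123 b014 b024 b124 b034 b134 b234 = 4) :
    chk q4 q2 CST b012 b013 b023 b123 b014 b024 b124 b034 b134 b234 = true := by
  have key : ∀ x y : ℕ, (B2 fun b023 => B2 fun b123 => B2 fun b014 => B2 fun b024 => B2 fun b124 => B2 fun b034 => B2 fun b134 => B2 fun b234 => or (not (Nat.beq (tg x y b023 b123 b014 b024 b124 b034 b134 b234) 4)) (chk q4 q2 CST x y b023 b123 b014 b024 b124 b034 b134 b234)) = true →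
      tg x y b023 b123 b014 b024 b124 b034 b134 b234 = 4 → chk q4 q2 CST x y b023 b123 b014 b024 b124 b034 b134 b234 = true := by
    intro x y h ht
    have h2 := (B2_true (B2_true (B2_true (B2_true (B2_true (B2_true (B2_true (B2_true h hb023) hb123) hb014) hb024) hb124) hb034) hb134) hb234)
    refine or_false_left h2 ?_
    rw [ht]
    rfl
  rcases hb012 with rfl | rfl <;> rcases hb013 with rfl | rfl
  · exact key 0 0 part00 ht
  · exact key 0 1 part01 ht
  · exact key 1 0 part10 ht
  · exact key 1 1 part11 ht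

theorem three {n : ℕ} (hn : 0 < n) (E : Fin n → Fin n → Fin n → ℕ) (hE : Sy E) :
    15 * ∑ a, ∑ b, ∑ c, ∑ d, (vv (E a b c + E a b d + E a c d + E b c d) : ℤ) ≤ 2429892885 * (n : ℤ) ^ 4 := by
  have hb := bound E hE 64 16 CST q4 (fun _ _ => 1) (fun c i k => l4 (rho c) (pc c i) k)
    q2 (fun _ => 1) l2 32768 1073741824 1073741824 (fun c => (vv (rho c) : ℤ)) hq4 hq2
    (leaf_all hE cs4 cs2 hc)
  have hC : (CST : ℤ) = 66854402325 := rfl
  have hS : Sv E (fun c => (vv (rho c) : ℤ)) = ∑ a, ∑ b, ∑ c, ∑ d, (vv (E a b c + E a b d + E a c d + E b c d) : ℤ) := by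
    unfold Sv
    refine sum_congr rfl fun a _ => sum_congr rfl fun b _ => sum_congr rfl fun c _ => sum_congr rfl fun d _ => ?_
    show (vv (rho (cd4 (E a b c) (E a b d) (E a c d) (E b c d))) : ℤ) = _
    rw [rho_cd4 (hE.b a b c) (hE.b a b d) (hE.b a c d) (hE.b b c d)]
  rw [hC, hS, Fintype.card_fin] at hb
  have hn' : (0 : ℤ) < (n : ℤ) ^ 2 := by positivity
  have h2 : (n : ℤ) ^ 2 * (15 * ∑ a, ∑ b, ∑ c, ∑ d, (vv (E a b c + E a b d + E a c d + E b c d) : ℤ))
      ≤ (n : ℤ) ^ 2 * (2429892885 * (n : ℤ) ^ 4) := by linarith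
  exact le_of_mul_le_mul_left h2 hn'

theorem vv0 : vv 0 = 158061118 := by decide +kernel
theorem vv1 : vv 1 = 175013664 := by decide +kernel
theorem vv2 : vv 2 = 52761322 := by decide +kernel
theorem vv3 : vv 3 = 78919499 := by decide +kernel
theorem vv4 : vv 4 = 0 := by decide +kernel

theorem main : turanDensity 10 11 ≤ 0.89674 := by
  refine Pool.Agent.W843.Lnk.density_of 7 (fun j => (vv j : ℤ)) 2429892885 15 59613923292 5419448832 (by norm_num) (by norm_num)
    (fun n hn E hE => three hn E hE) ?_ 0.89674 ?_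
  · intro B hB
    refine Pool.Agent.R81.EV.hB_of (m := 11) (v := fun j => (vv j : ℤ)) ?_ B hB
    intro d h1 h2
    have e0 := vv0
    have e1 := vv1
    have e2 := vv2
    have e3 := vv3
    have e4 := vv4
    simp only [e0, e1, e2, e3, e4]
    interval_cases d <;> norm_num [Nat.choose]
  · norm_num [Nat.choose]

end Pool.Agent.R81.EV.K10
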